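import Mathlib

/-!
# MP_f06e6c: every Alsedà–Misiurewicz system with `1/2 < x₀ < 1`, `1/2 ≤ y₀ < x₀` is minimal.
-/

namespace Pool.Agent.Results.MP_f06e6c_an.Minimality

open Set

/-- The map `f₀` of the Alsedà–Misiurewicz system with parameters `(x₀, y₀)`. -/
noncomputable def f0 (x₀ y₀ x : ℝ) : ℝ :=
  if x ≤ x₀ then (y₀ / x₀) * x else ((1 - y₀) / (1 - x₀)) * (x - 1) + 1

/-- The map `f₁(x) = 1 - f₀(1 - x)`. -/
noncomputable def f1 (x₀ y₀ x : ℝ) : ℝ := 1 - f0 x₀ y₀ (1 - x)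

/-- The system `(f₀, f₁)`, indexed by the digits `false ↦ f₀`, `true ↦ f₁`. -/
noncomputable def sys (x₀ y₀ : ℝ) (i : Bool) : ℝ → ℝ := if i then f1 x₀ y₀ else f0 x₀ y₀

/-- The orbit of `x`: all the points `f_{i_n} ∘ ⋯ ∘ f_{i_1} (x)`, `n ≥ 0`
(the word is written as the list `[i_n, …, i_1]`). -/
def orbit (x₀ y₀ x : ℝ) : Set ℝ :=
  {y | ∃ w : List Bool, y = w.foldr (fun i z => sys x₀ y₀ i z) x}

section

variable {x₀ y₀ : ℝ}

lemma f0_strictMono (hx0 : 0 < x₀) (hx1 : x₀ < 1) (hy0 : 0 < y₀) (hy1 : y₀ < 1) :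
    StrictMono (f0 x₀ y₀) := by
  intro x y hxy
  have ha : 0 < y₀ / x₀ := by positivity
  have hb : 0 < (1 - y₀) / (1 - x₀) := div_pos (by linarith) (by linarith)
  have e1 : y₀ / x₀ * x₀ = y₀ := by field_simp
  have e2 : (1 - y₀) / (1 - x₀) * (x₀ - 1) + 1 = y₀ := by
    have : (1 - x₀) ≠ 0 := by linarith
    field_simp; ring
  unfold f0
  split_ifs with h1 h2 h2
  · exact mul_lt_mul_of_pos_left hxy ha
  · push Not at h2
    have h3 : y₀ / x₀ * x ≤ y₀ / x₀ * x₀ := mul_le_mul_of_nonneg_left h1 ha.le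
    have h4 : (1 - y₀) / (1 - x₀) * (x₀ - 1) < (1 - y₀) / (1 - x₀) * (y - 1) :=
      mul_lt_mul_of_pos_left (by linarith) hb
    linarith
  · linarith
  · have h4 : (1 - y₀) / (1 - x₀) * (x - 1) < (1 - y₀) / (1 - x₀) * (y - 1) :=
      mul_lt_mul_of_pos_left (by linarith) hb
    linarith

lemma f0_cont (hx0 : 0 < x₀) (hx1 : x₀ < 1) : Continuous (f0 x₀ y₀) := by
  unfold f0
  refine Continuous.if_le (by fun_prop) (by fun_prop) continuous_id continuous_const ?_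
  intro x hx
  have hx : x = x₀ := hx
  subst hx
  have : (1 - x) ≠ 0 := by linarith
  field_simp
  ring

lemma f0_low (hx0 : 0 < x₀) (hy0 : 0 < y₀) {y : ℝ} (hy : y ≤ y₀) :
    f0 x₀ y₀ (y / (y₀ / x₀)) = y := by
  unfold f0
  have ha : 0 < y₀ / x₀ := by positivity
  have h : y / (y₀ / x₀) ≤ x₀ := by
    rw [div_le_iff₀ ha]
    have : x₀ * (y₀ / x₀) = y₀ := by field_simp
    linarith
  rw [if_pos h]
  field_simp

lemma f0_high (hx1 : x₀ < 1) (hy1 : y₀ < 1) {y : ℝ} (hy : y₀ < y) :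
    f0 x₀ y₀ (1 - (1 - y) / ((1 - y₀) / (1 - x₀))) = y := by
  unfold f0
  have hb : 0 < (1 - y₀) / (1 - x₀) := div_pos (by linarith) (by linarith)
  have h : ¬ (1 - (1 - y) / ((1 - y₀) / (1 - x₀)) ≤ x₀) := by
    have h1 : (1 - y) / ((1 - y₀) / (1 - x₀)) < 1 - x₀ := by
      rw [div_lt_iff₀ hb]
      have h2 : (1 - x₀) * ((1 - y₀) / (1 - x₀)) = 1 - y₀ := by
        have : (1 - x₀) ≠ 0 := by linarith
        field_simp
      linarith
    linarith
  rw [if_neg h]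
  have h3 : (1 - y₀) / (1 - x₀) * (1 - (1 - y) / ((1 - y₀) / (1 - x₀)) - 1) = -(1 - y) := by
    have : (1 - y₀) / (1 - x₀) * ((1 - y) / ((1 - y₀) / (1 - x₀))) = 1 - y :=
      mul_div_cancel₀ _ hb.ne'
    linarith
  linarith

/-- an invariant closed set with its maximal gap -/
structure GapSys (x₀ y₀ : ℝ) (A : Set ℝ) (l : ℝ) : Prop where
  inv0 : ∀ a ∈ A, f0 x₀ y₀ a ∈ A
  inv1 : ∀ a ∈ A, f1 x₀ y₀ a ∈ A
  max : ∀ u v, 0 ≤ u → u ≤ v → v ≤ 1 → (∀ a ∈ A, a ≤ u ∨ v ≤ a) → v - u ≤ l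

lemma GapSys.mirror {A : Set ℝ} {l : ℝ} (h : GapSys x₀ y₀ A l) :
    GapSys x₀ y₀ {a | 1 - a ∈ A} l where
  inv0 := by
    intro a ha
    have := h.inv1 _ ha
    simp only [f1, sub_sub_cancel] at this
    exact this
  inv1 := by
    intro a ha
    have := h.inv0 _ ha
    simpa [f1] using this
  max := by
    intro u v hu huv hv hA
    have := h.max (1 - v) (1 - u) (by linarith) (by linarith) (by linarith) (fun a ha => by
      rcases hA (1 - a) (by simpa using ha) with h1 | h1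
      · right; linarith
      · left; linarith)
    linarith

lemma pre_gap {f : ℝ → ℝ} (hf : StrictMono f) {A : Set ℝ} (hA : ∀ a ∈ A, f a ∈ A)
    {u v : ℝ} (hgap : ∀ a ∈ A, a ≤ f u ∨ f v ≤ a) : ∀ a ∈ A, a ≤ u ∨ v ≤ a := by
  intro a ha
  rcases hgap _ (hA a ha) with h | h
  · left; exact hf.le_iff_le.1 h
  · right; exact hf.le_iff_le.1 h

lemma L1 (hx0 : 1 / 2 < x₀) (hx1 : x₀ < 1) (hy0 : 1 / 2 ≤ y₀) (hyx : y₀ < x₀)
    {A : Set ℝ} {p q : ℝ} (h : GapSys x₀ y₀ A (q - p)) (hp : 0 < p) (hpq : p < q)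
    (hgap : ∀ a ∈ A, a ≤ p ∨ q ≤ a) : y₀ < q := by
  by_contra hcon
  push Not at hcon
  have hx00 : 0 < x₀ := by linarith
  have hy00 : 0 < y₀ := by linarith
  have ha : 0 < y₀ / x₀ := by positivity
  have ha1 : y₀ / x₀ < 1 := (div_lt_one hx00).2 hyx
  have hmono := f0_strictMono (x₀ := x₀) (y₀ := y₀) hx00 hx1 hy00 (by linarith)
  have h1 : ∀ a ∈ A, a ≤ p / (y₀ / x₀) ∨ q / (y₀ / x₀) ≤ a := by
    refine pre_gap hmono h.inv0 ?_
    rw [f0_low hx00 hy00 (by linarith), f0_low hx00 hy00 hcon]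
    exact hgap
  have h2 : q / (y₀ / x₀) ≤ x₀ := by
    rw [div_le_iff₀ ha]
    have : x₀ * (y₀ / x₀) = y₀ := by field_simp
    linarith
  have h3 := h.max _ _ (by positivity) (div_le_div_of_nonneg_right hpq.le ha.le)
    (by linarith) h1
  have h4 : q - p < (q - p) / (y₀ / x₀) := by
    rw [lt_div_iff₀ ha]
    have : 0 < q - p := by linarith
    nlinarith
  rw [← sub_div] at h3
  linarith

lemma L2 (hx0 : 1 / 2 < x₀) (hx1 : x₀ < 1) (hy0 : 1 / 2 ≤ y₀) (hyx : y₀ < x₀)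
    {A : Set ℝ} {p q : ℝ} (h : GapSys x₀ y₀ A (q - p)) (_hp : 0 < p) (hq : q < 1)
    (hqA : q ∈ A)
    (hgap : ∀ a ∈ A, a ≤ p ∨ q ≤ a) (h1 : y₀ < q) (h2 : p < 1 - y₀) :
    q ≤ p / (y₀ / x₀) ∧
      (1 - (1 - q) / ((1 - y₀) / (1 - x₀)) - p / (y₀ / x₀)) / (y₀ / x₀) ≤ q - p := by
  have hx00 : 0 < x₀ := by linarith
  have hy00 : 0 < y₀ := by linarith
  have ha : 0 < y₀ / x₀ := by positivity
  have ha1 : y₀ / x₀ < 1 := (div_lt_one hx00).2 hyx
  have hb1 : 1 < (1 - y₀) / (1 - x₀) := by rw [one_lt_div (by linarith)]; linarith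
  have hb : 0 < (1 - y₀) / (1 - x₀) := by linarith
  have hmono := f0_strictMono (x₀ := x₀) (y₀ := y₀) hx00 hx1 hy00 (by linarith)
  have hmono1 : StrictMono (f1 x₀ y₀) := by
    intro x y hxy
    unfold f1
    have := hmono (show 1 - y < 1 - x by linarith)
    linarith
  obtain ⟨u, hu⟩ : ∃ u, u = p / (y₀ / x₀) := ⟨_, rfl⟩
  obtain ⟨v, hv⟩ : ∃ v, v = 1 - (1 - q) / ((1 - y₀) / (1 - x₀)) := ⟨_, rfl⟩
  rw [← hu, ← hv]
  have hfu : f0 x₀ y₀ u = p := by rw [hu]; exact f0_low hx00 hy00 (by linarith)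
  have hfv : f0 x₀ y₀ v = q := by rw [hv]; exact f0_high hx1 (by linarith) h1
  have hpre : ∀ a ∈ A, a ≤ u ∨ v ≤ a := by
    refine pre_gap hmono h.inv0 ?_
    rw [hfu, hfv]; exact hgap
  have hqv : q < v := by
    have : (1 - q) / ((1 - y₀) / (1 - x₀)) < 1 - q := by
      rw [div_lt_iff₀ hb]
      nlinarith
    rw [hv]; linarith
  have hqu : q ≤ u := by
    rcases hpre q hqA with h3 | h3
    · exact h3
    · linarith
  refine ⟨hqu, ?_⟩
  have huv : u < v := by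
    have : f0 x₀ y₀ u < f0 x₀ y₀ v := by rw [hfu, hfv]; linarith
    exact hmono.lt_iff_lt.1 this
  have hv1 : v < 1 := by
    have : 0 < (1 - q) / ((1 - y₀) / (1 - x₀)) := div_pos (by linarith) hb
    rw [hv]; linarith
  -- preimage under f1
  have hg : ∀ y, 1 - y₀ ≤ y → f1 x₀ y₀ (1 - (1 - y) / (y₀ / x₀)) = y := by
    intro y hy
    unfold f1
    rw [sub_sub_cancel, f0_low hx00 hy00 (by linarith)]
    ring
  have hpre2 : ∀ a ∈ A, a ≤ 1 - (1 - u) / (y₀ / x₀) ∨ 1 - (1 - v) / (y₀ / x₀) ≤ a := by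
    refine pre_gap hmono1 h.inv1 ?_
    rw [hg u (by linarith), hg v (by linarith)]
    exact hpre
  have h5 : (1 - u) / (y₀ / x₀) ≤ 1 := by
    rw [div_le_one ha]
    have : (1 - q) ≤ y₀ / x₀ := by
      have h6 : 1 / 2 ≤ y₀ / x₀ := by
        rw [le_div_iff₀ hx00]; linarith
      linarith
    linarith
  have h6 : 0 ≤ (1 - v) / (y₀ / x₀) := div_nonneg (by linarith) ha.le
  have h7 : (1 - v) / (y₀ / x₀) ≤ (1 - u) / (y₀ / x₀) :=
    div_le_div_of_nonneg_right (by linarith) ha.le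
  have h8 := h.max _ _ (by linarith) (by linarith) (by linarith) hpre2
  have h9 : (v - u) / (y₀ / x₀) = (1 - u) / (y₀ / x₀) - (1 - v) / (y₀ / x₀) := by ring
  rw [h9]
  linarith

/-- the arithmetic contradiction -/
lemma arith (hx0 : 1 / 2 < x₀) (hx1 : x₀ < 1) (hy0 : 1 / 2 ≤ y₀) (hyx : y₀ < x₀)
    {p q : ℝ} (hpq : p < q) (h1 : y₀ < q) (h2 : p < 1 - y₀)
    (h3 : q ≤ p / (y₀ / x₀))
    (h4 : (1 - (1 - q) / ((1 - y₀) / (1 - x₀)) - p / (y₀ / x₀)) / (y₀ / x₀) ≤ q - p)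
    (h5 : (1 - p / ((1 - y₀) / (1 - x₀)) - (1 - q) / (y₀ / x₀)) / (y₀ / x₀) ≤ q - p) :
    False := by
  have hx00 : 0 < x₀ := by linarith
  have hy00 : 0 < y₀ := by linarith
  have hy1 : 0 < 1 - y₀ := by linarith
  have ha : 0 < y₀ / x₀ := by positivity
  rcases lt_or_ge (y₀ ^ 2) (1 / 2) with hc | hc
  · -- sum of the two inequalities
    have e1 : (1 - (1 - q) / ((1 - y₀) / (1 - x₀)) - p / (y₀ / x₀)) +
        (1 - p / ((1 - y₀) / (1 - x₀)) - (1 - q) / (y₀ / x₀)) =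
        2 - (1 - (q - p)) * (x₀ / y₀ + (1 - x₀) / (1 - y₀)) := by
      have : (1 - x₀) ≠ 0 := by linarith
      have : (1 - y₀) ≠ 0 := by linarith
      field_simp
      ring
    rw [div_le_iff₀ ha] at h4 h5
    have h6 : 2 - (1 - (q - p)) * (x₀ / y₀ + (1 - x₀) / (1 - y₀)) ≤
        2 * (q - p) * (y₀ / x₀) := by rw [← e1]; linarith
    have h7 : x₀ / y₀ + (1 - x₀) / (1 - y₀) ≤ 2 := by
      have : 2 - (x₀ / y₀ + (1 - x₀) / (1 - y₀)) =
          (x₀ - y₀) * (2 * y₀ - 1) / (y₀ * (1 - y₀)) := by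
        field_simp
        ring
      have : 0 ≤ (x₀ - y₀) * (2 * y₀ - 1) / (y₀ * (1 - y₀)) := by
        apply div_nonneg (mul_nonneg (by linarith) (by linarith)) (by positivity)
      linarith
    have h8 : 2 * (y₀ / x₀) < x₀ / y₀ + (1 - x₀) / (1 - y₀) := by
      have e2 : x₀ / y₀ + (1 - x₀) / (1 - y₀) - 2 * (y₀ / x₀) =
          (x₀ - y₀) * ((1 - 2 * y₀) * x₀ + 2 * y₀ * (1 - y₀)) / (x₀ * y₀ * (1 - y₀)) := by
        field_simp
        ring
      have h9 : 0 < (1 - 2 * y₀) * x₀ + 2 * y₀ * (1 - y₀) := by nlinarith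
      have : 0 < (x₀ - y₀) * ((1 - 2 * y₀) * x₀ + 2 * y₀ * (1 - y₀)) /
          (x₀ * y₀ * (1 - y₀)) :=
        div_pos (mul_pos (by linarith) h9) (by positivity)
      linarith
    have hl : 0 < q - p := by linarith
    nlinarith
  · rw [le_div_iff₀ ha] at h3
    have h6 : y₀ * (y₀ / x₀) < q * (y₀ / x₀) := mul_lt_mul_of_pos_right h1 ha
    have h7 : y₀ ^ 2 < y₀ * (y₀ / x₀) := by
      have : y₀ * (y₀ / x₀) = y₀ ^ 2 / x₀ := by ring
      rw [this, lt_div_iff₀ hx00]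
      have : 0 < y₀ ^ 2 := by positivity
      nlinarith
    linarith

end

/-- The graph points: `0`, `1` fixed, and `f₀ x < x < f₁ x` on `(0,1)`. -/
lemma f0_lt {x₀ y₀ x : ℝ} (hx0 : 0 < x₀) (hx1 : x₀ < 1) (hy0 : 0 < y₀) (hyx : y₀ < x₀)
    (h0 : 0 < x) (h1 : x < 1) : 0 < f0 x₀ y₀ x ∧ f0 x₀ y₀ x < x := by
  have ha : 0 < y₀ / x₀ := by positivity
  have ha1 : y₀ / x₀ < 1 := (div_lt_one hx0).2 hyx
  have hb1 : 1 < (1 - y₀) / (1 - x₀) := by rw [one_lt_div (by linarith)]; linarith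
  have hz : f0 x₀ y₀ 0 = 0 := by unfold f0; rw [if_pos hx0.le]; ring
  constructor
  · rw [← hz]; exact f0_strictMono hx0 hx1 hy0 (by linarith) h0
  · unfold f0
    split_ifs with h
    · nlinarith
    · nlinarith

/-- Every Alsedà–Misiurewicz system with `1/2 < x₀ < 1` and `1/2 ≤ y₀ < x₀` is minimal:
the orbit of every `x ∈ (0,1)` is dense in `(0,1)`. -/
theorem result : ∀ x₀ y₀ : ℝ, 1 / 2 < x₀ → x₀ < 1 → 1 / 2 ≤ y₀ → y₀ < x₀ →
    ∀ x ∈ Ioo (0 : ℝ) 1, Ioo (0 : ℝ) 1 ⊆ closure (orbit x₀ y₀ x) := by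
  intro x₀ y₀ hx0 hx1 hy0 hyx x hx z hz
  by_contra hzA
  have hx00 : 0 < x₀ := by linarith
  have hy00 : 0 < y₀ := by linarith
  obtain ⟨A, hA⟩ : ∃ A, A = closure (orbit x₀ y₀ x) := ⟨_, rfl⟩
  rw [← hA] at hzA
  have hAc : IsClosed A := by rw [hA]; exact isClosed_closure
  have hxA : x ∈ A := by rw [hA]; exact subset_closure ⟨[], rfl⟩
  have hc0 : Continuous (f0 x₀ y₀) := f0_cont hx00 hx1
  have hc1 : Continuous (f1 x₀ y₀) := by unfold f1; fun_prop
  have hinv0 : ∀ a ∈ A, f0 x₀ y₀ a ∈ A := by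
    intro a ha
    rw [hA] at ha ⊢
    refine map_mem_closure hc0 ha ?_
    rintro b ⟨w, rfl⟩
    exact ⟨false :: w, by simp [sys]⟩
  have hinv1 : ∀ a ∈ A, f1 x₀ y₀ a ∈ A := by
    intro a ha
    rw [hA] at ha ⊢
    refine map_mem_closure hc1 ha ?_
    rintro b ⟨w, rfl⟩
    exact ⟨true :: w, by simp [sys]⟩
  have hI0 : ∀ a ∈ Ioo (0 : ℝ) 1, f0 x₀ y₀ a ∈ Ioo (0 : ℝ) 1 := by
    intro a ha
    have := f0_lt hx00 hx1 hy00 hyx ha.1 ha.2
    exact ⟨this.1, this.2.trans ha.2⟩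
  have hI1 : ∀ a ∈ Ioo (0 : ℝ) 1, a < f1 x₀ y₀ a ∧ f1 x₀ y₀ a < 1 := by
    intro a ha
    have := f0_lt hx00 hx1 hy00 hyx (x := 1 - a) (by linarith [ha.2]) (by linarith [ha.1])
    unfold f1
    constructor <;> linarith
  have hA01 : A ⊆ Icc 0 1 := by
    rw [hA]
    refine closure_minimal ?_ isClosed_Icc
    rintro b ⟨w, rfl⟩
    have : ∀ w : List Bool, w.foldr (fun i z => sys x₀ y₀ i z) x ∈ Ioo (0 : ℝ) 1 := by
      intro w
      induction w with
      | nil => exact hx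
      | cons i w ih =>
        cases i
        · simpa [sys] using hI0 _ ih
        · have h := hI1 _ ih
          have h2 := ih.1
          simp only [List.foldr_cons, sys, if_true]
          exact ⟨h2.trans h.1, h.2⟩
    exact Ioo_subset_Icc_self (this w)
  -- 0 and 1 belong to A
  have hmin0 : (0 : ℝ) ∈ A := by
    have hcomp : IsCompact A := isCompact_Icc.of_isClosed_subset hAc hA01
    obtain ⟨m, hm, hle⟩ := hcomp.exists_isLeast ⟨x, hxA⟩
    have hm01 := hA01 hm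
    rcases eq_or_lt_of_le hm01.1 with h | h
    · rw [h]; exact hm
    · have hm1 : m < 1 := lt_of_le_of_lt (hle hxA) hx.2
      have h1 := (f0_lt hx00 hx1 hy00 hyx h hm1).2
      have h2 := hle (hinv0 m hm)
      linarith
  have hmax1 : (1 : ℝ) ∈ A := by
    have hcomp : IsCompact A := isCompact_Icc.of_isClosed_subset hAc hA01
    obtain ⟨m, hm, hle⟩ := hcomp.exists_isGreatest ⟨x, hxA⟩
    have hm01 := hA01 hm
    rcases eq_or_lt_of_le hm01.2 with h | h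
    · rw [← h]; exact hm
    · have hm1 : 0 < m := lt_of_lt_of_le hx.1 (hle hxA)
      have h1 := (hI1 m ⟨hm1, h⟩).1
      have h2 := hle (hinv1 m hm)
      linarith
  have hcomp : IsCompact A := isCompact_Icc.of_isClosed_subset hAc hA01
  -- the compact set of gaps
  let K : Set (ℝ × ℝ) := (A ×ˢ A) ∩ {r | r.1 ≤ r.2 ∧ ∀ a ∈ A, a ≤ r.1 ∨ r.2 ≤ a}
  have hK : IsCompact K := by
    refine (hcomp.prod hcomp).inter_right ?_
    have : {r : ℝ × ℝ | r.1 ≤ r.2 ∧ ∀ a ∈ A, a ≤ r.1 ∨ r.2 ≤ a} =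
        {r : ℝ × ℝ | r.1 ≤ r.2} ∩ ⋂ a ∈ A, ({r : ℝ × ℝ | a ≤ r.1} ∪ {r : ℝ × ℝ | r.2 ≤ a}) := by
      ext r; simp
    rw [this]
    refine (isClosed_le continuous_fst continuous_snd).inter ?_
    refine isClosed_biInter fun a _ => ?_
    exact (isClosed_le continuous_const continuous_fst).union
      (isClosed_le continuous_snd continuous_const)
  have hKne : K.Nonempty := by
    refine ⟨(0, 0), ⟨hmin0, hmin0⟩, le_refl _, fun a ha => Or.inr (hA01 ha).1⟩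
  obtain ⟨⟨p, q⟩, ⟨⟨hpA, hqA⟩, hpq, hgap⟩, hmax⟩ :=
    hK.exists_isMaxOn hKne (f := fun r : ℝ × ℝ => r.2 - r.1) (by fun_prop)
  simp only at hpA hqA hpq hgap
  have hmax' : ∀ u v, 0 ≤ u → u ≤ v → v ≤ 1 → (∀ a ∈ A, a ≤ u ∨ v ≤ a) → v - u ≤ q - p := by
    intro u v hu huv hv huvA
    obtain ⟨p', hp', hp'2⟩ := (hcomp.inter_right (isClosed_Iic (a := u))).exists_isGreatest
      ⟨0, hmin0, hu⟩
    obtain ⟨q', hq', hq'2⟩ := (hcomp.inter_right (isClosed_Ici (a := v))).exists_isLeast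
      ⟨1, hmax1, hv⟩
    have hin : ((p', q') : ℝ × ℝ) ∈ K := by
      refine ⟨⟨hp'.1, hq'.1⟩, ?_, ?_⟩
      · exact le_trans hp'.2 (le_trans huv hq'.2)
      · intro a ha
        rcases huvA a ha with h | h
        · left; exact hp'2 ⟨ha, h⟩
        · right; exact hq'2 ⟨ha, h⟩
    have h1 := hmax hin
    simp only [Set.mem_ofPred_eq] at h1
    have h2 : p' ≤ u := hp'.2
    have h3 : v ≤ q' := hq'.2
    have h4 : q' - p' ≤ q - p := h1
    linarith
  have hl : p < q := by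
    -- the point z gives a genuine gap
    obtain ⟨ε, hε, hball⟩ := Metric.isOpen_iff.1 hAc.isOpen_compl z hzA
    have h0 : 0 < min ε (min z (1 - z)) := lt_min hε (lt_min hz.1 (by linarith [hz.2]))
    set δ := min ε (min z (1 - z)) with hδ
    have hδε : δ ≤ ε := min_le_left _ _
    have hδz : δ ≤ z := (min_le_right _ _).trans (min_le_left _ _)
    have hδz' : δ ≤ 1 - z := (min_le_right _ _).trans (min_le_right _ _)
    have := hmax' (z - δ / 2) (z + δ / 2) (by linarith) (by linarith) (by linarith) (by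
      intro a ha
      by_contra hcon
      push Not at hcon
      have : a ∈ Metric.ball z ε := by
        rw [Metric.mem_ball, Real.dist_eq, abs_lt]
        constructor <;> linarith
      exact hball this ha)
    linarith
  have hp01 := hA01 hpA
  have hq01 := hA01 hqA
  have hp0 : 0 < p := by
    rcases eq_or_lt_of_le hp01.1 with h | h
    · exfalso
      rcases eq_or_lt_of_le hq01.2 with h' | h'
      · rcases hgap x hxA with h1 | h1
        · linarith [hx.1]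
        · linarith [hx.2]
      · have hq0 : 0 < q := by linarith
        have h1 := f0_lt hx00 hx1 hy00 hyx hq0 h'
        rcases hgap _ (hinv0 q hqA) with h2 | h2 <;> linarith
    · exact h
  have hq1 : q < 1 := by
    rcases eq_or_lt_of_le hq01.2 with h | h
    · exfalso
      have h1 := hI1 p ⟨hp0, by linarith⟩
      rcases hgap _ (hinv1 p hpA) with h2 | h2 <;> linarith
    · exact h
  have hG : GapSys x₀ y₀ A (q - p) := ⟨hinv0, hinv1, hmax'⟩
  have hG' : GapSys x₀ y₀ {a | 1 - a ∈ A} ((1 - p) - (1 - q)) := by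
    have := hG.mirror
    convert this using 1; ring
  have hgap' : ∀ a ∈ {a | 1 - a ∈ A}, a ≤ 1 - q ∨ 1 - p ≤ a := by
    intro a ha
    rcases hgap _ ha with h | h
    · right; linarith
    · left; linarith
  have k1 := L1 hx0 hx1 hy0 hyx hG hp0 hl hgap
  have k2 := L1 hx0 hx1 hy0 hyx hG' (by linarith) (by linarith) hgap'
  have k3 := L2 hx0 hx1 hy0 hyx hG hp0 hq1 hqA hgap k1 (by linarith)
  have k4 := L2 hx0 hx1 hy0 hyx hG' (by linarith) (by linarith)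
    (by show 1 - (1 - p) ∈ A; simpa using hpA) hgap' k2 (by linarith)
  refine arith hx0 hx1 hy0 hyx hl k1 (by linarith) k3.1 k3.2 ?_
  have := k4.2
  rw [show (1 : ℝ) - (1 - p) = p by ring] at this
  linarith

end Pool.Agent.Results.MP_f06e6c_an.Minimality
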